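import Pool.Agent.VPO.Family

/-!
# The upper bound, base change and the existence of programs
-/

set_option autoImplicit false

open Finset

namespace Pool.Agent.VPO

variable {k : Type} [Field k] {n : ℕ}

theorem L_le {G : PFamily k} {F : Type} [Field F] [Algebra k F] {f : MvPolynomial (Fin n) F} {r : ℕ}
    (h : ComputedBy G f r) : L G f ≤ r := Nat.sInf_le h

theorem Lapp_le {G : PFamily k} {f : MvPolynomial (Fin n) k} {F : MvPolynomial (Fin n) (RatFunc k)} {r : ℕ}
    (h : ∀ m, HasValueAtZero (MvPolynomial.coeff m F) (MvPolynomial.coeff m f)) (hF : ComputedBy G F r) :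
    Lapp G f ≤ r :=
  (Nat.sInf_le (⟨F, h, rfl⟩ : L G F ∈ {r | ∃ F : MvPolynomial (Fin n) (RatFunc k),
    (∀ m, HasValueAtZero (MvPolynomial.coeff m F) (MvPolynomial.coeff m f)) ∧ L G F = r})).trans (L_le hF)

theorem Avail.mono {F : Type} [Field F] {l l' : List (MvPolynomial (Fin n) F)} {p : MvPolynomial (Fin n) F}
    (h : Avail l p) (hl : ∀ q ∈ l, q ∈ l') : Avail l' p := by
  rcases h with h | h | h
  · exact Or.inl h
  · exact Or.inr (Or.inl h)
  · exact Or.inr (Or.inr (hl p h))

theorem Comp.append {G : PFamily k} {F : Type} [Field F] [Algebra k F] {r r' : ℕ}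
    {l l' : List (MvPolynomial (Fin n) F)} (h : Comp G r l) (h' : Comp G r' l') : Comp G (r + r') (l' ++ l) := by
  induction h' with
  | nil => exact h
  | add _ hp hq ih =>
    exact Comp.add ih (hp.mono fun q hq => List.mem_append_left _ hq) (hq.mono fun q hq => List.mem_append_left _ hq)
  | sub _ hp hq ih =>
    exact Comp.sub ih (hp.mono fun q hq => List.mem_append_left _ hq) (hq.mono fun q hq => List.mem_append_left _ hq)
  | mul _ hp hq ih =>
    exact Comp.mul ih (hp.mono fun q hq => List.mem_append_left _ hq) (hq.mono fun q hq => List.mem_append_left _ hq)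
  | oracle m a _ ha ih =>
    have h1 := Comp.oracle m a ih fun i => (ha i).mono fun q hq => List.mem_append_left _ hq
    rw [Nat.add_assoc] at h1
    exact h1

/-- every polynomial is computed by some program -/
theorem exists_computedBy (G : PFamily k) {F : Type} [Field F] [Algebra k F] (f : MvPolynomial (Fin n) F) :
    ∃ r, ComputedBy G f r := by
  induction f using MvPolynomial.induction_on with
  | C a => exact ⟨0, [], Comp.nil, Or.inl ⟨a, rfl⟩⟩
  | add p q hp hq =>
    obtain ⟨r, l, h1, h2⟩ := hp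
    obtain ⟨r', l', h3, h4⟩ := hq
    exact ⟨_, _, Comp.add (h1.append h3) (h2.mono fun q hq => List.mem_append_right _ hq)
      (h4.mono fun q hq => List.mem_append_left _ hq), Or.inr (Or.inr List.mem_cons_self)⟩
  | mul_X p i hp =>
    obtain ⟨r, l, h1, h2⟩ := hp
    exact ⟨_, _, Comp.mul h1 h2 (Or.inr (Or.inl ⟨i, rfl⟩)), Or.inr (Or.inr List.mem_cons_self)⟩

theorem computedBy_L (G : PFamily k) {F : Type} [Field F] [Algebra k F] (f : MvPolynomial (Fin n) F) :
    ComputedBy G f (L G f) := Nat.sInf_mem (exists_computedBy G f)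

theorem Avail.map {F F' : Type} [Field F] [Field F'] (φ : F →+* F') {l : List (MvPolynomial (Fin n) F)}
    {p : MvPolynomial (Fin n) F} (h : Avail l p) : Avail (l.map (MvPolynomial.map φ)) (MvPolynomial.map φ p) := by
  rcases h with ⟨c, rfl⟩ | ⟨i, rfl⟩ | h
  · exact Or.inl ⟨φ c, MvPolynomial.map_C _ _⟩
  · exact Or.inr (Or.inl ⟨i, MvPolynomial.map_X _ _⟩)
  · exact Or.inr (Or.inr (List.mem_map_of_mem h))

theorem Comp.map {G : PFamily k} {F : Type} [Field F] [Algebra k F] {r : ℕ}
    {l : List (MvPolynomial (Fin n) k)} (h : Comp G r l) :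
    Comp G r (l.map (MvPolynomial.map (algebraMap k F))) := by
  induction h with
  | nil => exact Comp.nil
  | add _ hp hq ih =>
    rw [List.map_cons, map_add]
    exact Comp.add ih (hp.map _) (hq.map _)
  | sub _ hp hq ih =>
    rw [List.map_cons, map_sub]
    exact Comp.sub ih (hp.map _) (hq.map _)
  | mul _ hp hq ih =>
    rw [List.map_cons, map_mul]
    exact Comp.mul ih (hp.map _) (hq.map _)
  | oracle m a _ ha ih =>
    rw [List.map_cons]
    have h1 : MvPolynomial.map (algebraMap k F) (MvPolynomial.aeval a (G.poly m)) =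
        MvPolynomial.aeval (fun i => MvPolynomial.map (algebraMap k F) (a i)) (G.poly m) := by
      have h2 : (MvPolynomial.mapAlgHom (Algebra.ofId k F) : MvPolynomial (Fin n) k →ₐ[k] MvPolynomial (Fin n) F)
          (MvPolynomial.aeval a (G.poly m)) =
          MvPolynomial.aeval (fun i => (MvPolynomial.mapAlgHom (Algebra.ofId k F) :
            MvPolynomial (Fin n) k →ₐ[k] MvPolynomial (Fin n) F) (a i)) (G.poly m) := by
        rw [← MvPolynomial.comp_aeval_apply]
      exact h2
    rw [h1]
    exact Comp.oracle m _ ih fun i => (ha i).map _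

theorem hasValueAtZero_algebraMap (p : Polynomial k) :
    HasValueAtZero (algebraMap (Polynomial k) (RatFunc k) p) (p.eval 0) :=
  ⟨p, 1, by simp, by simp, by simp⟩

theorem Lapp_le_L (G : PFamily k) (f : MvPolynomial (Fin n) k) : Lapp G f ≤ L G f := by
  obtain ⟨l, h1, h2⟩ := computedBy_L G f
  refine Lapp_le (F := MvPolynomial.map (algebraMap k (RatFunc k)) f) ?_ ⟨_, h1.map, h2.map _⟩
  intro m
  rw [MvPolynomial.coeff_map]
  have := hasValueAtZero_algebraMap (Polynomial.C (MvPolynomial.coeff m f))
  rw [Polynomial.eval_C] at this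
  exact this

theorem VP_subset_VPbar (G : PFamily k) : VP G ⊆ VPbar G := by
  rintro f ⟨p, hp⟩
  exact ⟨p, fun n => (Lapp_le_L G _).trans (hp n)⟩

/-- the polynomial over `k[ε]` which becomes the separating polynomial at `ε = 0` -/
noncomputable def hpoly (c : Ix n → k) : MvPolynomial (Fin n) (Polynomial k) :=
  ∑ i : Ix n, MvPolynomial.C (if wt i.2 ≤ wt (one n) then Polynomial.C (c i) * Polynomial.X ^ (wt (one n) - wt i.2)
    else 0) * mon (fun j => MvPolynomial.X j) i.1

theorem ringHom_mon {B B' : Type} [CommRing B] [CommRing B'] (φ : B →+* B') {q : ℕ} (x : Fin n → B)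
    (e : Fin n → Fin q) : φ (mon x e) = mon (fun j => φ (x j)) e := by
  unfold mon
  rw [map_prod]
  simp only [map_pow]

theorem map_hpoly_zero (c : Ix n → k) :
    MvPolynomial.map (Polynomial.evalRingHom (0 : k)) (hpoly c) = fpoly c := by
  unfold hpoly fpoly
  rw [map_sum]
  apply sum_congr rfl
  intro i _
  rw [map_mul, ringHom_mon, MvPolynomial.map_C]
  congr 1
  · congr 1
    by_cases h : i.2 = one n
    · rw [if_pos h, if_pos (by rw [h]), h, Nat.sub_self]
      simp
    · rw [if_neg h]
      by_cases h1 : wt i.2 ≤ wt (one n)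
      · rw [if_pos h1]
        have h2 : wt (one n) - wt i.2 ≠ 0 := by
          intro h3
          apply h
          apply wt_injective
          omega
        simp [h2]
      · rw [if_neg h1, map_zero]
  · simp only [MvPolynomial.map_X]

theorem mon_C_pow (q : ℕ) (x : RatFunc k) (e : Fin n → Fin q) :
    mon (fun j => (MvPolynomial.C ((x ^ 3 ^ (j : ℕ))⁻¹) : MvPolynomial (Fin n) (RatFunc k))) e =
      MvPolynomial.C ((x ^ wt e)⁻¹) := by
  unfold mon wt
  rw [← prod_pow_eq_pow_sum, ← prod_inv_distrib, map_prod]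
  apply prod_congr rfl
  intro j _
  rw [← map_pow, inv_pow, ← pow_mul, Nat.mul_comm]

theorem upper (α : (Σ m, Ix m) → k) (n : ℕ) : Lapp (orc α) ((fam α).poly n) ≤ 2 * n + 2 := by
  let c : Ix n → k := fun i => α ⟨n, i⟩
  let ε : RatFunc k := RatFunc.X
  have hε : ε ≠ 0 := RatFunc.X_ne_zero
  let F : MvPolynomial (Fin n) (RatFunc k) := MvPolynomial.map (algebraMap (Polynomial k) (RatFunc k)) (hpoly c)
  let a : Fin (n + n) → MvPolynomial (Fin n) (RatFunc k) :=
    Fin.append (fun j => MvPolynomial.X j) fun j => MvPolynomial.C ((ε ^ 3 ^ (j : ℕ))⁻¹)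
  have ha : ∀ i, Avail ([] : List (MvPolynomial (Fin n) (RatFunc k))) (a i) := by
    intro i
    refine Fin.addCases (fun j => ?_) (fun j => ?_) i
    · show Avail _ (Fin.append _ _ _)
      rw [Fin.append_left]
      exact Or.inr (Or.inl ⟨j, rfl⟩)
    · show Avail _ (Fin.append _ _ _)
      rw [Fin.append_right]
      exact Or.inl ⟨_, rfl⟩
  have h1 : Comp (orc α) (0 + (n + n + 1)) [MvPolynomial.aeval a (opoly c)] :=
    Comp.oracle (G := orc α) n a Comp.nil ha
  have h2 : Comp (orc α) (0 + (n + n + 1) + 1)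
      [MvPolynomial.C (ε ^ wt (one n)) * MvPolynomial.aeval a (opoly c), MvPolynomial.aeval a (opoly c)] :=
    Comp.mul h1 (Or.inl ⟨_, rfl⟩) (Or.inr (Or.inr List.mem_cons_self))
  have h3 : MvPolynomial.C (ε ^ wt (one n)) * MvPolynomial.aeval a (opoly c) = F := by
    show _ = MvPolynomial.map _ (hpoly c)
    rw [aeval_opoly, mul_sum]
    unfold hpoly
    rw [map_sum]
    apply sum_congr rfl
    intro i _
    rw [map_mul, ringHom_mon, MvPolynomial.map_C]
    have h4 : mon (fun j => a (Fin.castAdd n j)) i.1 = mon (fun j => MvPolynomial.X j) i.1 := by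
      congr 1
      funext j
      exact Fin.append_left _ _ _
    have h5 : mon (fun j => a (Fin.natAdd n j)) i.2 = MvPolynomial.C ((ε ^ wt i.2)⁻¹) := by
      rw [← mon_C_pow]
      congr 1
      funext j
      exact Fin.append_right _ _ _
    rw [h4, h5]
    simp only [MvPolynomial.map_X]
    have h6 : MvPolynomial.C (ε ^ wt (one n)) * algebraMap k (MvPolynomial (Fin n) (RatFunc k))
        (if wt i.2 ≤ wt (one n) then c i else 0) * MvPolynomial.C ((ε ^ wt i.2)⁻¹) =
        MvPolynomial.C (algebraMap (Polynomial k) (RatFunc k) (if wt i.2 ≤ wt (one n) then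
          Polynomial.C (c i) * Polynomial.X ^ (wt (one n) - wt i.2) else 0)) := by
      rw [IsScalarTower.algebraMap_apply k (RatFunc k), MvPolynomial.algebraMap_eq, ← map_mul, ← map_mul]
      congr 1
      split_ifs with h
      · rw [map_mul, map_pow, RatFunc.algebraMap_X, RatFunc.algebraMap_C]
        have h7 : ε ^ wt (one n) = ε ^ (wt (one n) - wt i.2) * ε ^ wt i.2 := by
          rw [← pow_add, Nat.sub_add_cancel h]
        have h8 : algebraMap k (RatFunc k) (c i) = RatFunc.C (c i) := rfl
        rw [h7, h8]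
        field_simp
        exact mul_comm _ _
      · rw [map_zero, map_zero]
        ring
    rw [← h6]
    ring
  rw [h3] at h2
  have h4 : ComputedBy (orc α) F (2 * n + 2) := by
    have h5 : 0 + (n + n + 1) + 1 = 2 * n + 2 := by ring
    rw [h5] at h2
    exact ⟨_, h2, Or.inr (Or.inr List.mem_cons_self)⟩
  refine Lapp_le ?_ h4
  intro m
  show HasValueAtZero (MvPolynomial.coeff m (MvPolynomial.map _ (hpoly c))) (MvPolynomial.coeff m (fpoly c))
  rw [MvPolynomial.coeff_map, ← map_hpoly_zero, MvPolynomial.coeff_map]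
  exact hasValueAtZero_algebraMap _

end Pool.Agent.VPO
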