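import Pool.Agent.VPO.Lower
import Pool.Agent.VPO.Upper

/-!
# The separation
-/

set_option autoImplicit false

open Finset

namespace Pool.Agent.VPO

variable {k : Type} [Field k]

theorem separation_bound {K0 : Type} [Field K0] [Algebra K0 k] {α : (Σ m, Ix m) → k}
    (hα : AlgebraicIndependent K0 α) (n : ℕ) : 2 ^ n < 2 * (L (orc α) ((fam α).poly n) + 1) ^ 2 := by
  let D : Set (Σ m, Ix m) := {i | i.1 ≠ n}
  let K1 := IntermediateField.adjoin K0 (α '' D)
  have h1 : AlgebraicIndepOn (Algebra.adjoin K0 (α '' D)) α Dᶜ := ((AlgebraicIndependent.iff_adjoin_image D).1 hα).2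
  have h2 : AlgebraicIndependent K1 (fun i : (Dᶜ : Set (Σ m, Ix m)) => α i) :=
    IntermediateField.algebraicIndependent_adjoin_iff.2 h1
  have h3 : AlgebraicIndependent K1 (cof α n) := by
    refine h2.comp (fun i : Ix n => (⟨⟨n, i⟩, by simp [D]⟩ : (Dᶜ : Set (Σ m, Ix m)))) ?_
    intro i j hij
    have := congrArg (fun x : (Dᶜ : Set (Σ m, Ix m)) => (x : Σ m, Ix m)) hij
    simpa using this
  refine lower (K0 := K1) ?_ h3 (computedBy_L _ _)
  intro m hm i
  exact ⟨⟨α ⟨m, i⟩, IntermediateField.subset_adjoin _ _ ⟨⟨m, i⟩, hm, rfl⟩⟩, rfl⟩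

theorem exists_lt_two_pow (p : Polynomial ℕ) : ∃ n : ℕ, 2 * (p.eval n + 1) ^ 2 ≤ 2 ^ n := by
  let P : Polynomial ℝ := (2 * (p + 1) ^ 2 : Polynomial ℕ).map (Nat.castRingHom ℝ)
  have h1 : Filter.Tendsto (fun n : ℕ => P.eval (n : ℝ) / (2 : ℝ) ^ n) Filter.atTop (nhds 0) := by
    have h2 : ∀ n : ℕ, P.eval (n : ℝ) / (2 : ℝ) ^ n = ∑ i ∈ range (P.natDegree + 1), P.coeff i * ((n : ℝ) ^ i / 2 ^ n) := by
      intro n
      rw [Polynomial.eval_eq_sum_range, sum_div]
      apply sum_congr rfl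
      intro i _
      ring
    simp only [h2]
    have h3 : (0 : ℝ) = ∑ i ∈ range (P.natDegree + 1), P.coeff i * 0 := by simp
    rw [h3]
    apply tendsto_finsetSum
    intro i _
    exact (tendsto_pow_const_div_const_pow_of_one_lt i (by norm_num : (1 : ℝ) < 2)).const_mul _
  obtain ⟨n, hn⟩ := (h1.eventually (gt_mem_nhds (by norm_num : (0 : ℝ) < 1))).exists
  refine ⟨n, ?_⟩
  rw [div_lt_one (by positivity)] at hn
  have h4 : P.eval (n : ℝ) = ((2 * (p.eval n + 1) ^ 2 : ℕ) : ℝ) := by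
    have h5 := Polynomial.eval_natCast_map (Nat.castRingHom ℝ) (2 * (p + 1) ^ 2 : Polynomial ℕ) n
    show ((2 * (p + 1) ^ 2 : Polynomial ℕ).map (Nat.castRingHom ℝ)).eval (n : ℝ) = _
    rw [h5]
    simp
  rw [h4] at hn
  exact_mod_cast hn.le

theorem separation {K0 : Type} [Field K0] [Algebra K0 k] {α : (Σ m, Ix m) → k}
    (hα : AlgebraicIndependent K0 α) : VP (orc α) ⊂ VPbar (orc α) := by
  refine Set.ssubset_iff_subset_ne.2 ⟨VP_subset_VPbar _, ?_⟩
  intro h
  have h1 : fam α ∈ VPbar (orc α) := by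
    refine ⟨2 * Polynomial.X + 2, fun n => ?_⟩
    have := upper α n
    simpa using this
  rw [← h] at h1
  obtain ⟨p, hp⟩ := h1
  obtain ⟨n, hn⟩ := exists_lt_two_pow p
  have h2 := separation_bound hα n
  have h3 := hp n
  have h4 : 2 * (L (orc α) ((fam α).poly n) + 1) ^ 2 ≤ 2 * (p.eval n + 1) ^ 2 := by
    have : L (orc α) ((fam α).poly n) + 1 ≤ p.eval n + 1 := Nat.succ_le_succ h3
    exact Nat.mul_le_mul_left _ (Nat.pow_le_pow_left this 2)
  omega

open Cardinal in
/-- an uncountable field contains, for every countable index type, a family which is algebraically independent over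
the prime field -/
theorem exists_algebraicIndependent (k : Type) [Field k] [Uncountable k] (ι : Type) [Countable ι] :
    ∃ x : ι → k, AlgebraicIndependent (Subfield.closure (∅ : Set k)) x := by
  obtain ⟨κ, x, hx⟩ := exists_isTranscendenceBasis' (Subfield.closure (∅ : Set k)) k
  have hκ : Infinite κ := by
    by_contra hfin
    rw [not_infinite_iff_finite] at hfin
    have h1 : #(Subfield.closure (∅ : Set k)) ≤ ℵ₀ := by
      refine (Subfield.cardinalMk_closure_le_max _).trans ?_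
      simp
    have h2 : #(Set.range x) ≤ ℵ₀ := by
      rw [Cardinal.le_aleph0_iff_set_countable]
      exact Set.countable_range x
    have h3 : #(IntermediateField.adjoin (Subfield.closure (∅ : Set k)) (Set.range x)) ≤ ℵ₀ :=
      (IntermediateField.cardinalMk_adjoin_le _ _).trans (sup_le (sup_le h1 h2) le_rfl)
    have h4 := hx.isAlgebraic_field
    have h5 : #k ≤ ℵ₀ :=
      (Algebra.IsAlgebraic.cardinalMk_le_max (IntermediateField.adjoin (Subfield.closure (∅ : Set k)) (Set.range x))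
        k).trans (max_le h3 le_rfl)
    rw [Cardinal.mk_le_aleph0_iff] at h5
    exact not_countable h5
  obtain ⟨g⟩ : Nonempty (ι ↪ κ) := by
    obtain ⟨e, he⟩ := exists_injective_nat ι
    exact ⟨(⟨e, he⟩ : ι ↪ ℕ).trans (Infinite.natEmbedding κ)⟩
  exact ⟨x ∘ g, hx.1.comp g g.injective⟩

end Pool.Agent.VPO
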