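import Pool.Agent.VPO.Extract

/-!
# Linear forms in algebraically independent elements, and the counting of the information obtained
-/

set_option autoImplicit false

open Finset

namespace Pool.Agent.VPO

variable {K0 k : Type} [Field K0] [Field k] [Algebra K0 k] {ι : Type} [Fintype ι]

theorem card_le_of_algebraicIndependent {α : ι → k} (hα : AlgebraicIndependent K0 α) (s : Finset k)
    (h : ∀ i, α i ∈ IntermediateField.adjoin K0 (s : Set k)) : Fintype.card ι ≤ s.card := by
  classical
  have hI : (AlgebraicIndependent.matroid K0 k).Indep (Set.range α) := hα.to_subtype_range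
  have hsub : Set.range α ⊆ (AlgebraicIndependent.matroid K0 k).closure (s : Set k) := by
    rw [AlgebraicIndependent.matroid_closure_eq]
    rintro _ ⟨i, rfl⟩
    rw [SetLike.mem_coe, Subalgebra.mem_algebraicClosure, ← IntermediateField.isAlgebraic_adjoin_iff]
    exact isAlgebraic_algebraMap (⟨α i, h i⟩ : IntermediateField.adjoin K0 (s : Set k))
  have h1 := (hI.encard_le_eRk_of_subset hsub).trans
    ((Matroid.eRk_closure_eq _ _).le.trans (Matroid.eRk_le_encard _ _))
  rw [Set.encard_coe_eq_coe_finsetCard, ← Set.image_univ, hα.injective.encard_image,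
    Set.encard_univ, ENat.card_eq_coe_fintype_card] at h1
  exact_mod_cast h1

/-- `v` has entries in `E` and the value of the linear form `v` at `α` is in `E` -/
def RatV (E : IntermediateField K0 k) (α v : ι → k) : Prop := (∀ i, v i ∈ E) ∧ ∑ i, v i * α i ∈ E

theorem RatV.mono {E E' : IntermediateField K0 k} {α v : ι → k} (h : RatV E α v) (hE : E ≤ E') : RatV E' α v :=
  ⟨fun i => hE (h.1 i), hE h.2⟩

theorem descent {E : IntermediateField K0 k} {α : ι → k} {S : Set (ι → k)} (hS : ∀ v ∈ S, RatV E α v)
    {v : ι → k} (hv : ∀ i, v i ∈ E) (hvS : v ∈ Submodule.span k S) : RatV E α v := by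
  classical
  refine ⟨hv, ?_⟩
  let c : (ι → E) → (ι → k) := fun x i => (x i : k)
  let U : Submodule E (ι → E) := Submodule.span E {x | c x ∈ S}
  let v' : ι → E := fun i => ⟨v i, hv i⟩
  by_cases hU : v' ∈ U
  · have h1 : ∀ x ∈ U, ∑ i, (x i : k) * α i ∈ E := by
      intro x hx
      induction hx using Submodule.span_induction with
      | mem x hx => exact (hS _ hx).2
      | zero =>
        have : ∑ i, (((0 : ι → E) i : E) : k) * α i = 0 := by simp
        rw [this]
        exact E.zero_mem
      | add x y _ _ h1 h2 =>
        have : ∑ i, (((x + y) i : E) : k) * α i = ∑ i, (x i : k) * α i + ∑ i, (y i : k) * α i := by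
          rw [← sum_add_distrib]
          apply sum_congr rfl
          intro i _
          simp [add_mul]
        rw [this]
        exact E.add_mem h1 h2
      | smul a x _ h1 =>
        have : ∑ i, (((a • x) i : E) : k) * α i = (a : k) * ∑ i, (x i : k) * α i := by
          rw [mul_sum]
          apply sum_congr rfl
          intro i _
          simp [mul_assoc]
        rw [this]
        exact E.mul_mem a.2 h1
    exact h1 v' hU
  · exfalso
    obtain ⟨g, hg1, hg2⟩ := Submodule.exists_le_ker_of_notMem hU
    let G : (ι → k) →ₗ[k] k :=
      { toFun := fun x => ∑ i, x i * (g (Pi.single i 1) : k)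
        map_add' := by
          intro x y
          simp only [Pi.add_apply, add_mul, sum_add_distrib]
        map_smul' := by
          intro a x
          simp only [Pi.smul_apply, smul_eq_mul, RingHom.id_apply, mul_sum, mul_assoc] }
    have hG : ∀ x : ι → E, G (c x) = (g x : k) := by
      intro x
      have h1 : g x = ∑ i, x i * g (Pi.single i 1) := by
        conv_lhs => rw [← Finset.univ_sum_single x]
        rw [map_sum]
        apply sum_congr rfl
        intro i _
        have h2 : (Pi.single i (x i) : ι → E) = x i • Pi.single i 1 := by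
          rw [← Pi.single_smul, smul_eq_mul, mul_one]
        rw [h2, map_smul, smul_eq_mul]
      show ∑ i, (x i : k) * (g (Pi.single i 1) : k) = (g x : k)
      rw [h1]
      push_cast
      rfl
    have h0 : ∀ x ∈ Submodule.span k S, G x = 0 := by
      intro x hx
      have : Submodule.span k S ≤ LinearMap.ker G := by
        rw [Submodule.span_le]
        intro y hy
        rw [SetLike.mem_coe, LinearMap.mem_ker]
        let y' : ι → E := fun i => ⟨y i, (hS y hy).1 i⟩
        have h1 : y' ∈ U := Submodule.subset_span hy
        have h2 := hg2 h1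
        rw [LinearMap.mem_ker] at h2
        have h3 := hG y'
        rw [h2] at h3
        exact h3
      exact this hx
    have h1 := h0 v hvS
    have h2 : G v = (g v' : k) := hG v'
    rw [h1] at h2
    apply hg1
    exact (Subtype.ext h2).symm

/-- the state of the counting: all linear forms in `S` are rational over the field `E` generated by the finite
set `s`, with values in `E`; the cardinality of `s` is bounded by the number `b` of constants used plus the
dimension of the span of `S`, with a gain of `a`. -/
structure Inv (K0 : Type) {k : Type} [Field K0] [Field k] [Algebra K0 k] {ι : Type} [Fintype ι] (α : ι → k)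
    (s : Finset k) (S : Set (ι → k)) (a b : ℕ) : Prop where
  rat : ∀ v ∈ S, RatV (IntermediateField.adjoin K0 (s : Set k)) α v
  card : s.card + a ≤ b + Module.finrank k (Submodule.span k S)

variable {α : ι → k} {s : Finset k} {S : Set (ι → k)} {a b : ℕ}

theorem adj_mono {s s' : Finset k} (h : s ⊆ s') :
    IntermediateField.adjoin K0 (s : Set k) ≤ IntermediateField.adjoin K0 (s' : Set k) :=
  IntermediateField.adjoin.mono _ _ _ (by exact_mod_cast h)

theorem Inv.const (h : Inv K0 α s S a b) (c : k) :
    ∃ s', s ⊆ s' ∧ c ∈ IntermediateField.adjoin K0 (s' : Set k) ∧ Inv K0 α s' S a (b + 1) := by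
  classical
  refine ⟨insert c s, subset_insert _ _, ?_, ?_, ?_⟩
  · exact IntermediateField.subset_adjoin _ _ (by simp)
  · intro v hv
    exact (h.rat v hv).mono (adj_mono (subset_insert _ _))
  · have h1 := h.card
    have h2 := card_insert_le c s
    omega

theorem finrank_lt_insert {v : ι → k} (hv : v ∉ Submodule.span k S) :
    Module.finrank k (Submodule.span k S) + 1 ≤ Module.finrank k (Submodule.span k (insert v S)) := by
  apply Submodule.finrank_lt_finrank_of_lt
  refine lt_of_le_of_ne (Submodule.span_mono (Set.subset_insert _ _)) ?_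
  intro h
  apply hv
  rw [h]
  exact Submodule.subset_span (Set.mem_insert _ _)

theorem Inv.gain (h : Inv K0 α s S a b) {v : ι → k} (hv : RatV (IntermediateField.adjoin K0 (s : Set k)) α v)
    (hvS : v ∉ Submodule.span k S) : Inv K0 α s (insert v S) (a + 1) b := by
  refine ⟨?_, ?_⟩
  · rintro u (rfl | hu)
    · exact hv
    · exact h.rat u hu
  · have h1 := h.card
    have h2 := finrank_lt_insert hvS
    omega

theorem Inv.add (h : Inv K0 α s S a b) {v : ι → k} (hv : ∀ i, v i ∈ IntermediateField.adjoin K0 (s : Set k)) :
    ∃ s', s ⊆ s' ∧ Inv K0 α s' (insert v S) a b := by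
  classical
  by_cases hvS : v ∈ Submodule.span k S
  · refine ⟨s, Subset.refl _, ?_, ?_⟩
    · rintro u (rfl | hu)
      · exact descent h.rat hv hvS
      · exact h.rat u hu
    · rw [Submodule.span_insert_eq_span hvS]
      exact h.card
  · refine ⟨insert (∑ i, v i * α i) s, subset_insert _ _, ?_, ?_⟩
    · rintro u (rfl | hu)
      · refine ⟨fun i => adj_mono (subset_insert _ _) (hv i), ?_⟩
        exact IntermediateField.subset_adjoin _ _ (by simp)
      · exact (h.rat u hu).mono (adj_mono (subset_insert _ _))
    · have h1 := h.card
      have h2 := card_insert_le (∑ i, v i * α i) s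
      have h3 := finrank_lt_insert hvS
      omega

theorem Inv.add_many {J : Type} [DecidableEq J] (h : Inv K0 α s S a b) (Q : Finset J) (f : J → ι → k)
    (hv : ∀ j ∈ Q, ∀ i, f j i ∈ IntermediateField.adjoin K0 (s : Set k)) :
    ∃ s', s ⊆ s' ∧ Inv K0 α s' (S ∪ f '' Q) a b := by
  induction Q using Finset.induction_on with
  | empty => exact ⟨s, Subset.refl _, by simpa using h⟩
  | insert j Q hj ih =>
    obtain ⟨s1, h1, h2⟩ := ih fun j hj => hv j (mem_insert_of_mem hj)
    obtain ⟨s2, h3, h4⟩ := h2.add (v := f j) fun i => adj_mono h1 (hv j (mem_insert_self _ _) i)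
    refine ⟨s2, h1.trans h3, ?_⟩
    have : S ∪ f '' ((insert j Q : Finset J) : Set J) = insert (f j) (S ∪ f '' (Q : Set J)) := by
      rw [coe_insert, Set.image_insert_eq, Set.union_insert]
    rw [this]
    exact h4

end Pool.Agent.VPO
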