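import Pool.Agent.VPO.Family
import Pool.Agent.VPO.Trdeg

/-!
# The lower bound
-/

set_option autoImplicit false

open Finset

namespace Pool.Agent.VPO

theorem map_mon {B B' : Type} [CommRing B] [CommRing B'] (φ : B →+* B') {n q : ℕ} (x : Fin n → B)
    (e : Fin n → Fin q) : φ (mon x e) = mon (fun j => φ (x j)) e := by
  unfold mon
  rw [map_prod]
  simp only [map_pow]

variable {K0 k : Type} [Field K0] [Field k] [Algebra K0 k] {n : ℕ}

theorem eval_oracle {m : ℕ} (c : Ix m → k) (a : Fin (m + m) → MvPolynomial (Fin n) k) (z : Fin n → k) :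
    MvPolynomial.eval z (MvPolynomial.aeval a (opoly c)) =
      ∑ i : Ix m, (if wt i.2 ≤ wt (one m) then c i else 0) *
        (mon (fun j => MvPolynomial.eval z (a (Fin.castAdd m j))) i.1 *
          mon (fun j => MvPolynomial.eval z (a (Fin.natAdd m j))) i.2) := by
  rw [aeval_opoly, map_sum]
  apply sum_congr rfl
  intro i _
  rw [map_mul, map_mul, map_mon, map_mon, MvPolynomial.algebraMap_eq, MvPolynomial.eval_C]

/-- the coefficients for the index `n` -/
abbrev cof (α : (Σ m, Ix m) → k) (n : ℕ) : Ix n → k := fun i => α ⟨n, i⟩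

/-- the linear form of a node -/
def nd (p : (Fin n → k) × (Fin n → k)) : Ix n → k := ev p.1 p.2

theorem mon_mem {E : IntermediateField K0 k} {q : ℕ} {x : Fin n → k} (hx : ∀ j, x j ∈ E) (e : Fin n → Fin q) :
    mon x e ∈ E := by
  unfold mon
  exact prod_mem fun j _ => pow_mem (hx j) _

theorem nd_mem {E : IntermediateField K0 k} {p : (Fin n → k) × (Fin n → k)} (h1 : ∀ j, p.1 j ∈ E)
    (h2 : ∀ j, p.2 j ∈ E) (i : Ix n) : nd p i ∈ E := by
  unfold nd ev
  split_ifs
  · exact mul_mem (mon_mem h1 _) (mon_mem h2 _)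
  · exact zero_mem _

/-- the state reached after some steps of a program -/
structure St (K0 : Type) {k : Type} [Field K0] [Field k] [Algebra K0 k] {n : ℕ} (α : Ix n → k)
    (T : Finset (Fin n → Fin 2)) (l : List (MvPolynomial (Fin n) k)) (s : Finset k)
    (P : Finset ((Fin n → k) × (Fin n → k))) (b c : ℕ) : Prop where
  inv : Inv K0 α s (nd '' P) 0 b
  card : P.card ≤ c
  val : ∀ p ∈ l, ∀ β ∈ T, MvPolynomial.eval (bp k β) p ∈ IntermediateField.adjoin K0 (s : Set k)

variable {α : Ix n → k} {T : Finset (Fin n → Fin 2)} {l : List (MvPolynomial (Fin n) k)} {s : Finset k}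
  {P : Finset ((Fin n → k) × (Fin n → k))} {b c : ℕ}

theorem bp_mem (E : IntermediateField K0 k) (β : Fin n → Fin 2) (j : Fin n) : bp k β j ∈ E := natCast_mem E _

theorem St.avail (h : St K0 α T l s P b c) {p : MvPolynomial (Fin n) k} (hp : Avail l p) :
    ∃ s', s ⊆ s' ∧ St K0 α T l s' P (b + 1) c ∧
      ∀ β ∈ T, MvPolynomial.eval (bp k β) p ∈ IntermediateField.adjoin K0 (s' : Set k) := by
  have key : ∀ x : k, ∃ s', s ⊆ s' ∧ x ∈ IntermediateField.adjoin K0 (s' : Set k) ∧
      St K0 α T l s' P (b + 1) c := by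
    intro x
    obtain ⟨s', h1, h2, h3⟩ := h.inv.const x
    exact ⟨s', h1, h2, h3, h.card, fun p hp β hβ => adj_mono h1 (h.val p hp β hβ)⟩
  rcases hp with ⟨x, rfl⟩ | ⟨i, rfl⟩ | hp
  · obtain ⟨s', h1, h2, h3⟩ := key x
    refine ⟨s', h1, h3, fun β _ => ?_⟩
    rw [MvPolynomial.eval_C]
    exact h2
  · obtain ⟨s', h1, h2, h3⟩ := key 0
    refine ⟨s', h1, h3, fun β _ => ?_⟩
    rw [MvPolynomial.eval_X]
    exact bp_mem _ _ _
  · obtain ⟨s', h1, h2, h3⟩ := key 0
    exact ⟨s', h1, h3, fun β hβ => h3.val p hp β hβ⟩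

theorem St.avail_many (h : St K0 α T l s P b c) {q : ℕ} (a : Fin q → MvPolynomial (Fin n) k)
    (ha : ∀ i, Avail l (a i)) (J : Finset (Fin q)) :
    ∃ s', s ⊆ s' ∧ St K0 α T l s' P (b + J.card) c ∧
      ∀ i ∈ J, ∀ β ∈ T, MvPolynomial.eval (bp k β) (a i) ∈ IntermediateField.adjoin K0 (s' : Set k) := by
  classical
  induction J using Finset.induction_on with
  | empty => exact ⟨s, Subset.refl _, h, fun i hi => absurd hi (notMem_empty i)⟩
  | insert j J hj ih =>
    obtain ⟨s1, h1, h2, h3⟩ := ih
    obtain ⟨s2, h4, h5, h6⟩ := h2.avail (ha j)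
    refine ⟨s2, h1.trans h4, ?_, ?_⟩
    · rw [card_insert_of_notMem hj]
      exact h5
    · intro i hi β hβ
      rcases mem_insert.1 hi with rfl | hi
      · exact h6 β hβ
      · exact adj_mono h4 (h3 i hi β hβ)

theorem St.cons {r : ℕ} (h : St K0 α T l s P b c) {p : MvPolynomial (Fin n) k}
    (hp : ∀ β ∈ T, MvPolynomial.eval (bp k β) p ∈ IntermediateField.adjoin K0 (s : Set k)) (hr : c ≤ r) :
    St K0 α T (p :: l) s P b r := by
  refine ⟨h.inv, h.card.trans hr, ?_⟩
  intro q hq β hβ
  rcases List.mem_cons.1 hq with rfl | hq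
  · exact hp β hβ
  · exact h.val q hq β hβ

theorem St.mono_l {l' : List (MvPolynomial (Fin n) k)} (h : St K0 α T l s P b c) (hl : ∀ p ∈ l', p ∈ l) :
    St K0 α T l' s P b c := ⟨h.inv, h.card, fun p hp => h.val p (hl p hp)⟩

theorem St.two (h : St K0 α T l s P b c) {p q : MvPolynomial (Fin n) k} (hp : Avail l p) (hq : Avail l q) :
    ∃ s', s ⊆ s' ∧ St K0 α T l s' P (b + 2) c ∧
      (∀ β ∈ T, MvPolynomial.eval (bp k β) p ∈ IntermediateField.adjoin K0 (s' : Set k)) ∧
      ∀ β ∈ T, MvPolynomial.eval (bp k β) q ∈ IntermediateField.adjoin K0 (s' : Set k) := by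
  obtain ⟨s1, h1, h2, h3⟩ := h.avail hp
  obtain ⟨s2, h4, h5, h6⟩ := h2.avail hq
  exact ⟨s2, h1.trans h4, h5, fun β hβ => adj_mono h4 (h3 β hβ), h6⟩

theorem main_ind {α : (Σ m, Ix m) → k} (hα : ∀ m, m ≠ n → ∀ i : Ix m, ∃ z : K0, algebraMap K0 k z = α ⟨m, i⟩)
    {r : ℕ} (hc : Comp (orc α) r l) (T : Finset (Fin n → Fin 2)) :
    ∃ s P, St K0 (cof α n) T l s P (2 * r) (r * T.card) := by
  classical
  induction hc with
  | nil =>
    refine ⟨∅, ∅, ⟨?_, ?_⟩, ?_, ?_⟩
    · intro v hv
      simp at hv
    · simp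
    · simp
    · intro p hp
      simp at hp
  | @add r l p q hc hp hq ih =>
    obtain ⟨s, P, h⟩ := ih
    obtain ⟨s', h1, h2, h3, h4⟩ := h.two hp hq
    refine ⟨s', P, h2.cons ?_ (Nat.mul_le_mul_right _ (by omega))⟩
    intro β hβ
    rw [map_add]
    exact add_mem (h3 β hβ) (h4 β hβ)
  | @sub r l p q hc hp hq ih =>
    obtain ⟨s, P, h⟩ := ih
    obtain ⟨s', h1, h2, h3, h4⟩ := h.two hp hq
    refine ⟨s', P, h2.cons ?_ (Nat.mul_le_mul_right _ (by omega))⟩
    intro β hβ
    rw [map_sub]
    exact sub_mem (h3 β hβ) (h4 β hβ)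
  | @mul r l p q hc hp hq ih =>
    obtain ⟨s, P, h⟩ := ih
    obtain ⟨s', h1, h2, h3, h4⟩ := h.two hp hq
    refine ⟨s', P, h2.cons ?_ (Nat.mul_le_mul_right _ (by omega))⟩
    intro β hβ
    rw [map_mul]
    exact mul_mem (h3 β hβ) (h4 β hβ)
  | @oracle r l m a hc ha ih =>
    obtain ⟨s, P, h⟩ := ih
    obtain ⟨s1, h1, h2, h3⟩ := h.avail_many a ha univ
    have hcard : (univ : Finset (Fin ((orc α).vars m))).card = m + m := by
      rw [card_univ, Fintype.card_fin]
      rfl
    rw [hcard] at h2
    have hvars : (orc α).vars m = m + m := rfl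
    have hval : ∀ (j : Fin ((orc α).vars m)), ∀ β ∈ T,
        MvPolynomial.eval (bp k β) (a j) ∈ IntermediateField.adjoin K0 (s1 : Set k) :=
      fun j β hβ => h3 j (mem_univ _) β hβ
    by_cases hm : m = n
    · subst hm
      let node : (Fin m → Fin 2) → (Fin m → k) × (Fin m → k) := fun β =>
        (fun j => MvPolynomial.eval (bp k β) (a (Fin.castAdd m j)),
          fun j => MvPolynomial.eval (bp k β) (a (Fin.natAdd m j)))
      obtain ⟨s2, h4, h5⟩ := h2.inv.add_many (T.image node) nd (by
        intro p hp i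
        obtain ⟨β, hβ, rfl⟩ := mem_image.1 hp
        exact nd_mem (fun j => hval _ β hβ) (fun j => hval _ β hβ) i)
      have hU : nd '' (P : Set ((Fin m → k) × (Fin m → k))) ∪ nd '' ((T.image node : Finset _) : Set _) =
          (nd '' ((P ∪ T.image node : Finset _) : Set _) : Set (Ix m → k)) := by
        rw [coe_union, Set.image_union]
      rw [hU] at h5
      refine ⟨s2, P ∪ T.image node, ⟨⟨h5.rat, ?_⟩, ?_, ?_⟩⟩
      · have h6 := h5.card
        rw [hvars]
        omega
      · have h6 := card_union_le P (T.image node)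
        have h7 : (T.image node).card ≤ T.card := card_image_le
        have h8 := h2.card
        rw [hvars]
        calc (P ∪ T.image node).card ≤ r * T.card + T.card := by omega
          _ = (r + 1) * T.card := by ring
          _ ≤ _ := Nat.mul_le_mul_right _ (by omega)
      · intro q hq β hβ
        rcases List.mem_cons.1 hq with rfl | hq
        · have h6 := (h5.rat (nd (node β)) (Set.mem_image_of_mem _ (by
            rw [mem_coe, mem_union]
            exact Or.inr (mem_image_of_mem _ hβ)))).2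
          have h7 : MvPolynomial.eval (bp k β) (MvPolynomial.aeval a ((orc α).poly m)) =
              ∑ i, nd (node β) i * cof α m i := by
            refine (eval_oracle (cof α m) a (bp k β)).trans ?_
            apply sum_congr rfl
            intro i _
            unfold nd ev
            split_ifs
            · ring
            · ring
          rw [h7]
          exact h6
        · exact adj_mono h4 (h2.val q hq β hβ)
    · refine ⟨s1, P, ⟨⟨h2.inv.rat, ?_⟩, ?_, ?_⟩⟩
      · have h6 := h2.inv.card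
        rw [hvars]
        omega
      · exact h2.card.trans (Nat.mul_le_mul_right _ (by omega))
      · intro q hq β hβ
        rcases List.mem_cons.1 hq with rfl | hq
        · have h7 : MvPolynomial.eval (bp k β) (MvPolynomial.aeval a ((orc α).poly m)) = _ :=
            eval_oracle (cof α m) a (bp k β)
          rw [h7]
          refine sum_mem fun i _ => mul_mem ?_ (mul_mem (mon_mem (fun j => hval _ β hβ) _)
            (mon_mem (fun j => hval _ β hβ) _))
          split_ifs
          · obtain ⟨z, hz⟩ := hα m hm i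
            show α ⟨m, i⟩ ∈ _
            rw [← hz]
            exact IntermediateField.algebraMap_mem _ z
          · exact zero_mem _
        · exact h2.val q hq β hβ

/-- the lower bound -/
theorem lower {α : (Σ m, Ix m) → k} (hα : ∀ m, m ≠ n → ∀ i : Ix m, ∃ z : K0, algebraMap K0 k z = α ⟨m, i⟩)
    (hind : AlgebraicIndependent K0 (cof α n)) {r : ℕ} (hc : ComputedBy (orc α) (fpoly (cof α n)) r) :
    2 ^ n < 2 * (r + 1) ^ 2 := by
  classical
  by_contra hcon
  push Not at hcon
  obtain ⟨l, hl, hf⟩ := hc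
  have hT : 2 * r + 2 ≤ (univ : Finset (Fin n → Fin 2)).card := by
    rw [card_univ, Fintype.card_fun, Fintype.card_fin, Fintype.card_fin]
    nlinarith
  obtain ⟨T, -, hTc⟩ := exists_subset_card_eq hT
  obtain ⟨s0, P, h0⟩ := main_ind hα hl T
  obtain ⟨s, h1, h2, h3⟩ := h0.avail hf
  have hP : P.card < 2 ^ n := by
    have := h2.card
    rw [hTc] at this
    nlinarith
  have heb : ∀ β ∈ T, RatV (IntermediateField.adjoin K0 (s : Set k)) (cof α n) (eb (bp k β)) := by
    intro β hβ
    refine ⟨?_, ?_⟩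
    · intro i
      unfold eb
      split_ifs
      · exact mon_mem (bp_mem _ β) _
      · exact zero_mem _
    · have h4 := h3 β hβ
      have h5 : MvPolynomial.eval (bp k β) (fpoly (cof α n)) = ∑ i, eb (bp k β) i * cof α n i := by
        have h6 : MvPolynomial.eval (bp k β) (fpoly (cof α n)) = _ := aeval_fpoly (cof α n) (bp k β)
        rw [h6]
        apply sum_congr rfl
        intro i _
        unfold eb
        split_ifs
        · show cof α n i * _ = _
          ring
        · rw [map_zero]
          ring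
      rw [← h5]
      exact h4
  have hgain : ∀ T' ⊆ T, Inv K0 (cof α n) s (nd '' P ∪ (fun β => eb (bp k β)) '' (T' : Set (Fin n → Fin 2)))
      T'.card (2 * r + 1) := by
    intro T'
    induction T' using Finset.induction_on with
    | empty =>
      intro _
      simpa using h2.inv
    | insert β T' hβ ih =>
      intro hsub
      have hT' : T' ⊆ T := (subset_insert _ _).trans hsub
      have hβT : β ∈ T := hsub (mem_insert_self _ _)
      have h4 : nd '' (P : Set ((Fin n → k) × (Fin n → k))) ∪ (fun β => eb (bp k β)) '' ((insert β T' : Finset _) : Set _) =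
          (insert (eb (bp k β)) (nd '' P ∪ (fun β => eb (bp k β)) '' (T' : Set (Fin n → Fin 2))) : Set (Ix n → k)) := by
        rw [coe_insert, Set.image_insert_eq, Set.union_insert]
      rw [h4, card_insert_of_notMem hβ]
      refine (ih hT').gain (heb β hβT) ?_
      intro hmem
      obtain ⟨Θ, hΘ1, hΘ2⟩ := exists_functional P hP β
      have h5 : Submodule.span k (nd '' P ∪ (fun β => eb (bp k β)) '' (T' : Set (Fin n → Fin 2))) ≤
          LinearMap.ker Θ := by
        rw [Submodule.span_le]
        rintro v (⟨p, hp, rfl⟩ | ⟨β', hβ', rfl⟩)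
        · exact hΘ1 p hp
        · show Θ _ = 0
          rw [hΘ2, if_neg]
          rintro rfl
          exact hβ hβ'
      have h6 : Θ (eb (bp k β)) = 0 := h5 hmem
      rw [hΘ2, if_pos rfl] at h6
      exact one_ne_zero h6
  have h4 := hgain T (Subset.refl _)
  obtain ⟨s', h5, h6⟩ := h4.add_many (univ : Finset (Ix n)) (fun i => Pi.single i 1) (by
    intro i _ j
    rcases eq_or_ne j i with rfl | hj
    · rw [Pi.single_eq_same]
      exact one_mem _
    · rw [Pi.single_eq_of_ne hj]
      exact zero_mem _)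
  have h7 : ∀ i, cof α n i ∈ IntermediateField.adjoin K0 (s' : Set k) := by
    intro i
    have h8 := (h6.rat (Pi.single i 1) (Or.inr ⟨i, by simp, rfl⟩)).2
    rw [sum_eq_single i] at h8
    · rwa [Pi.single_eq_same, one_mul] at h8
    · intro j _ hj
      rw [Pi.single_eq_of_ne hj, zero_mul]
    · intro h
      exact absurd (mem_univ _) h
  have h8 := card_le_of_algebraicIndependent hind s' h7
  have h9 := h6.card
  have h10 : Module.finrank k (Submodule.span k ((nd '' P ∪ (fun β => eb (bp k β)) '' (T : Set (Fin n → Fin 2))) ∪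
      (fun i => Pi.single i (1 : k)) '' ((univ : Finset (Ix n)) : Set (Ix n)))) ≤ Fintype.card (Ix n) := by
    refine (Submodule.finrank_le _).trans ?_
    rw [Module.finrank_fintype_fun_eq_card]
  rw [hTc] at h9
  omega

end Pool.Agent.VPO
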