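import Mathlib

/-!
# Oracle complexity and approximative oracle complexity of polynomials

The definitions are those of `MP_96a35c_lc`, with one more kind of gate: the evaluation of a polynomial
of a fixed p-family `G` (the oracle) at results computed before.
-/

set_option autoImplicit false

open MvPolynomial

namespace Pool.Agent.VPO

/-- `t` is polynomially bounded. -/
def PBounded (t : ℕ → ℕ) : Prop := ∃ p : Polynomial ℕ, ∀ n, t n ≤ p.eval n

/-- A p-family over `k`: polynomials `poly n` in `vars n` variables, the number of variables and the
degree being polynomially bounded. -/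
structure PFamily (k : Type) [Field k] where
  /-- number of variables -/
  vars : ℕ → ℕ
  /-- the polynomials -/
  poly : ∀ n, MvPolynomial (Fin (vars n)) k
  vars_bdd : PBounded vars
  deg_bdd : PBounded fun n => (poly n).totalDegree

variable {k : Type} [Field k]

/-- `p` is a constant, a variable or a member of the list `l`. -/
def Avail {F : Type} [Field F] {n : ℕ} (l : List (MvPolynomial (Fin n) F))
    (p : MvPolynomial (Fin n) F) : Prop :=
  (∃ c, p = C c) ∨ (∃ i, p = X i) ∨ p ∈ l

/-- `Comp G r l`: there is a straight-line program with oracle `G` over the field `F` (an extension of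
the field `k` of the oracle), with free constants and variables, of cost `r` and with the list `l` of
results (the last result is the head of `l`). The operations `+`, `-`, `*` have cost `1`; the evaluation
of the polynomial `G.poly m` in `G.vars m` variables has cost `G.vars m + 1`. -/
inductive Comp (G : PFamily k) {F : Type} [Field F] [Algebra k F] {n : ℕ} :
    ℕ → List (MvPolynomial (Fin n) F) → Prop
  | nil : Comp G 0 []
  | add {r : ℕ} {l : List (MvPolynomial (Fin n) F)} {p q : MvPolynomial (Fin n) F} :
      Comp G r l → Avail l p → Avail l q → Comp G (r + 1) ((p + q) :: l)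
  | sub {r : ℕ} {l : List (MvPolynomial (Fin n) F)} {p q : MvPolynomial (Fin n) F} :
      Comp G r l → Avail l p → Avail l q → Comp G (r + 1) ((p - q) :: l)
  | mul {r : ℕ} {l : List (MvPolynomial (Fin n) F)} {p q : MvPolynomial (Fin n) F} :
      Comp G r l → Avail l p → Avail l q → Comp G (r + 1) ((p * q) :: l)
  | oracle {r : ℕ} {l : List (MvPolynomial (Fin n) F)} (m : ℕ)
      (a : Fin (G.vars m) → MvPolynomial (Fin n) F) :
      Comp G r l → (∀ i, Avail l (a i)) → Comp G (r + (G.vars m + 1)) (aeval a (G.poly m) :: l)

/-- `f` is computed with cost `r` over `F` relative to the oracle `G`. -/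
def ComputedBy (G : PFamily k) {F : Type} [Field F] [Algebra k F] {n : ℕ}
    (f : MvPolynomial (Fin n) F) (r : ℕ) : Prop :=
  ∃ l, Comp G r l ∧ Avail l f

/-- The oracle complexity `L^G(f)` over `F`: the least cost of a program which computes `f`. -/
noncomputable def L (G : PFamily k) {F : Type} [Field F] [Algebra k F] {n : ℕ}
    (f : MvPolynomial (Fin n) F) : ℕ :=
  sInf {r | ComputedBy G f r}

/-- The rational function `φ` of `ε` is defined at `ε = 0` and has the value `c` there. -/
def HasValueAtZero (φ : RatFunc k) (c : k) : Prop :=
  ∃ p q : Polynomial k, q.eval 0 ≠ 0 ∧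
    φ = algebraMap (Polynomial k) (RatFunc k) p / algebraMap (Polynomial k) (RatFunc k) q ∧
    c = p.eval 0 / q.eval 0

/-- The approximative oracle complexity of `f`: the least `L^G(F)` over `k(ε)` of a polynomial `F` whose
coefficients are defined at `ε = 0` and which becomes `f` there. -/
noncomputable def Lapp (G : PFamily k) {n : ℕ} (f : MvPolynomial (Fin n) k) : ℕ :=
  sInf {r | ∃ F : MvPolynomial (Fin n) (RatFunc k),
    (∀ m, HasValueAtZero (coeff m F) (coeff m f)) ∧ L G F = r}

/-- The class `VP` relative to `G`. -/
def VP (G : PFamily k) : Set (PFamily k) := {f | PBounded fun n => L G (f.poly n)}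

/-- The class of the p-families of polynomially bounded approximative complexity relative to `G`. -/
def VPbar (G : PFamily k) : Set (PFamily k) := {f | PBounded fun n => Lapp G (f.poly n)}

end Pool.Agent.VPO
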