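import Pool.Agent.VPO.Defs

/-!
# The oracle polynomials and a functional which separates the limit from few evaluations
-/

set_option autoImplicit false

open Finset

namespace Pool.Agent.VPO

/-- pairs of exponent vectors -/
abbrev Ix (n : ℕ) : Type := (Fin n → Fin 2) × (Fin n → Fin 3)

/-- the weight of an exponent vector -/
def wt {n q : ℕ} (b : Fin n → Fin q) : ℕ := ∑ j, (b j : ℕ) * 3 ^ (j : ℕ)

/-- the exponent vector `(1, ..., 1)` -/
def one (n : ℕ) : Fin n → Fin 3 := fun _ => 1

/-- the monomial with exponent vector `e` at `x` -/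
def mon {A : Type} [CommRing A] {n q : ℕ} (x : Fin n → A) (e : Fin n → Fin q) : A := ∏ j, x j ^ (e j : ℕ)

variable {k : Type} [Field k] {n : ℕ}

theorem wt_injective : Function.Injective (wt : (Fin n → Fin 3) → ℕ) := by
  intro a b h
  apply finFunctionFinEquiv.injective
  apply Fin.ext
  rw [finFunctionFinEquiv_apply, finFunctionFinEquiv_apply]
  exact h

theorem exists_rel (P : Finset (Fin n → k)) (hP : P.card < 2 ^ n) :
    ∃ f : (Fin n → Fin 3) → k, (∀ b, wt (one n) < wt b → f b = 0) ∧ f (one n) = 1 ∧
      ∀ Y ∈ P, ∑ b, f b * mon Y b = 0 := by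
  classical
  let Λ : ((Fin n → Fin 2) → k) →ₗ[k] (P → k) :=
    { toFun := fun c Y => ∑ β, c β * mon (Y : Fin n → k) β
      map_add' := by
        intro c d
        funext Y
        simp only [Pi.add_apply, add_mul, sum_add_distrib]
      map_smul' := by
        intro a c
        funext Y
        simp only [Pi.smul_apply, smul_eq_mul, RingHom.id_apply, mul_sum, mul_assoc] }
  have hker : LinearMap.ker Λ ≠ ⊥ := by
    apply LinearMap.ker_ne_bot_of_finrank_lt
    rw [Module.finrank_fintype_fun_eq_card, Module.finrank_fintype_fun_eq_card]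
    simpa using hP
  obtain ⟨c, hc, hne⟩ := Submodule.exists_mem_ne_zero_of_ne_bot hker
  have hsupp : (univ.filter fun β => c β ≠ 0).Nonempty := by
    by_contra hcon
    rw [not_nonempty_iff_eq_empty, filter_eq_empty_iff] at hcon
    apply hne
    funext β
    simpa using hcon (mem_univ β)
  obtain ⟨βs, hβs, hmax⟩ := exists_max_image _ (fun β : Fin n → Fin 2 => wt β) hsupp
  have hβ0 : c βs ≠ 0 := (mem_filter.1 hβs).2
  have hlt : ∀ (β : Fin n → Fin 2) (j : Fin n), (β j : ℕ) + 1 - (βs j : ℕ) < 3 := by
    intro β j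
    have := (β j).2
    omega
  let sh : (Fin n → Fin 2) → (Fin n → Fin 3) := fun β j => ⟨(β j : ℕ) + 1 - (βs j : ℕ), hlt β j⟩
  have hwt : ∀ β, wt (sh β) + wt βs = wt β + wt (one n) := by
    intro β
    unfold wt
    rw [← sum_add_distrib, ← sum_add_distrib]
    apply sum_congr rfl
    intro j _
    have h1 : ((sh β j : Fin 3) : ℕ) = (β j : ℕ) + 1 - (βs j : ℕ) := rfl
    have h2 : ((one n j : Fin 3) : ℕ) = 1 := rfl
    have h3 : (βs j : ℕ) ≤ (β j : ℕ) + 1 := by
      have := (βs j).2
      omega
    rw [h1, h2, ← add_mul, ← add_mul, Nat.sub_add_cancel h3]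
  have hmon : ∀ (Y : Fin n → k) β, mon Y (sh β) = mon Y β * ∏ j, Y j ^ (1 - (βs j : ℕ)) := by
    intro Y β
    unfold mon
    rw [← prod_mul_distrib]
    apply prod_congr rfl
    intro j _
    have h1 : ((sh β j : Fin 3) : ℕ) = (β j : ℕ) + (1 - (βs j : ℕ)) := by
      have := (βs j).2
      show (β j : ℕ) + 1 - (βs j : ℕ) = _
      omega
    rw [h1, pow_add]
  have hone : ∀ β, sh β = one n ↔ β = βs := by
    intro β
    constructor
    · intro h
      funext j
      have h1 := congrArg Fin.val (congrFun h j)
      have h2 : (β j : ℕ) + 1 - (βs j : ℕ) = 1 := h1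
      apply Fin.ext
      have := (βs j).2
      omega
    · rintro rfl
      funext j
      apply Fin.ext
      show (β j : ℕ) + 1 - (β j : ℕ) = 1
      omega
  refine ⟨fun b => ∑ β, if sh β = b then c β / c βs else 0, ?_, ?_, ?_⟩
  · intro b hb
    apply sum_eq_zero
    intro β _
    split_ifs with h
    · by_cases h0 : c β = 0
      · rw [h0, zero_div]
      · exfalso
        have h1 : wt β ≤ wt βs := hmax β (mem_filter.2 ⟨mem_univ _, h0⟩)
        have h2 := hwt β
        rw [h] at h2
        omega
    · rfl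
  · show (∑ β, if sh β = one n then c β / c βs else 0) = 1
    rw [sum_eq_single βs]
    · rw [if_pos ((hone βs).2 rfl), div_self hβ0]
    · intro β _ h
      rw [if_neg]
      intro h'
      exact h ((hone β).1 h')
    · intro h
      exact absurd (mem_univ _) h
  · intro Y hY
    have h0 : ∑ β, c β * mon Y β = 0 := by
      have := congrFun (LinearMap.mem_ker.1 hc) ⟨Y, hY⟩
      exact this
    calc ∑ b, (∑ β, if sh β = b then c β / c βs else 0) * mon Y b
        = ∑ b, ∑ β, if sh β = b then c β / c βs * mon Y b else 0 := by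
          apply sum_congr rfl
          intro b _
          rw [sum_mul]
          apply sum_congr rfl
          intro β _
          split_ifs <;> simp
      _ = ∑ β, ∑ b, if sh β = b then c β / c βs * mon Y b else 0 := sum_comm
      _ = ∑ β, c β / c βs * mon Y (sh β) := by
          apply sum_congr rfl
          intro β _
          rw [sum_ite_eq]
          simp
      _ = (∑ β, c β * mon Y β) * ((∏ j, Y j ^ (1 - (βs j : ℕ))) / c βs) := by
          rw [sum_mul]
          apply sum_congr rfl
          intro β _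
          rw [hmon]
          field_simp
      _ = 0 := by rw [h0, zero_mul]

/-- the value of the oracle polynomial at `(X, Y)` as a linear form in its coefficients -/
def ev (X Y : Fin n → k) : Ix n → k := fun i => if wt i.2 ≤ wt (one n) then mon X i.1 * mon Y i.2 else 0

/-- a Boolean point -/
def bp (k : Type) [Field k] {n : ℕ} (β : Fin n → Fin 2) : Fin n → k := fun j => ((β j : ℕ) : k)

/-- the value of the limit polynomial at a point, as a linear form in the coefficients -/
def eb (x : Fin n → k) : Ix n → k := fun i => if i.2 = one n then mon x i.1 else 0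

/-- coefficients of `X` resp. `1 - X` -/
def w (k : Type) [Field k] (a c : Fin 2) : k := if a = 1 then (if c = 1 then 1 else 0) else if c = 1 then -1 else 1

theorem sum_w (β0 : Fin n → Fin 2) (x : Fin n → k) :
    ∑ e : Fin n → Fin 2, (∏ j, w k (β0 j) (e j)) * mon x e =
      ∏ j, (w k (β0 j) 0 + w k (β0 j) 1 * x j) := by
  have h1 : ∏ j, (w k (β0 j) 0 + w k (β0 j) 1 * x j) = ∏ j, ∑ c : Fin 2, w k (β0 j) c * x j ^ (c : ℕ) := by
    apply prod_congr rfl
    intro j _
    rw [Fin.sum_univ_two]
    simp
  rw [h1, prod_univ_sum, Fintype.piFinset_univ]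
  apply sum_congr rfl
  intro e _
  unfold mon
  rw [← prod_mul_distrib]

theorem prod_w (β0 β : Fin n → Fin 2) :
    ∏ j, (w k (β0 j) 0 + w k (β0 j) 1 * bp k β j) = if β = β0 then 1 else 0 := by
  have hw : ∀ a b : Fin 2, w k a 0 + w k a 1 * ((b : ℕ) : k) = if b = a then 1 else 0 := by
    intro a b
    fin_cases a <;> fin_cases b <;> simp [w]
  unfold bp
  rw [prod_congr rfl (fun j _ => hw (β0 j) (β j))]
  split_ifs with h
  · subst h
    apply prod_eq_one
    intro j _
    rw [if_pos rfl]
  · obtain ⟨j, hj⟩ := Function.ne_iff.1 h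
    exact prod_eq_zero (mem_univ j) (if_neg hj)

theorem exists_functional (P : Finset ((Fin n → k) × (Fin n → k))) (hP : P.card < 2 ^ n) (β0 : Fin n → Fin 2) :
    ∃ Θ : (Ix n → k) →ₗ[k] k, (∀ p ∈ P, Θ (ev p.1 p.2) = 0) ∧
      ∀ β, Θ (eb (bp k β)) = if β = β0 then 1 else 0 := by
  classical
  obtain ⟨f, hf1, hf2, hf3⟩ := exists_rel (P.image Prod.snd) (lt_of_le_of_lt card_image_le hP)
  let u : (Fin n → Fin 2) → k := fun e => ∏ j, w k (β0 j) (e j)
  refine ⟨{ toFun := fun v => ∑ i : Ix n, v i * (u i.1 * f i.2), map_add' := ?_, map_smul' := ?_ }, ?_, ?_⟩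
  · intro a b
    simp only [Pi.add_apply, add_mul, sum_add_distrib]
  · intro a b
    simp only [Pi.smul_apply, smul_eq_mul, RingHom.id_apply, mul_sum, mul_assoc]
  · rintro ⟨X, Y⟩ hp
    show ∑ i : Ix n, ev X Y i * (u i.1 * f i.2) = 0
    have h1 : ∑ i : Ix n, ev X Y i * (u i.1 * f i.2) = (∑ e, u e * mon X e) * ∑ b, f b * mon Y b := by
      rw [sum_mul_sum, Fintype.sum_prod_type]
      apply sum_congr rfl
      intro e _
      apply sum_congr rfl
      intro b _
      unfold ev
      dsimp only
      split_ifs with h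
      · ring
      · rw [hf1 b (by omega)]
        ring
    rw [h1, hf3 Y (mem_image_of_mem Prod.snd hp), mul_zero]
  · intro β
    show ∑ i : Ix n, eb (bp k β) i * (u i.1 * f i.2) = _
    rw [← prod_w, ← sum_w, Fintype.sum_prod_type]
    apply sum_congr rfl
    intro e _
    rw [sum_eq_single (one n)]
    · unfold eb
      rw [if_pos rfl, hf2]
      ring
    · intro b _ hb
      unfold eb
      rw [if_neg hb, zero_mul]
    · intro h
      exact absurd (mem_univ _) h

end Pool.Agent.VPO
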