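import Pool.Agent.VPO.Extract

/-!
# The oracle and the separating family
-/

set_option autoImplicit false

open Finset

namespace Pool.Agent.VPO

variable {A : Type} [CommRing A] {n : ℕ}

/-- the oracle polynomial: variables `x_1, ..., x_n, y_1, ..., y_n`, exponents of `x_j` at most `1`, exponents of
`y_j` at most `2`, only exponent vectors for `y` of weight at most that of `(1, ..., 1)` -/
noncomputable def opoly (c : Ix n → A) : MvPolynomial (Fin (n + n)) A :=
  ∑ i : Ix n, MvPolynomial.C (if wt i.2 ≤ wt (one n) then c i else 0) *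
    (mon (fun j => MvPolynomial.X (Fin.castAdd n j)) i.1 * mon (fun j => MvPolynomial.X (Fin.natAdd n j)) i.2)

/-- the coefficient of `y_1 ⋯ y_n` in the oracle polynomial -/
noncomputable def fpoly (c : Ix n → A) : MvPolynomial (Fin n) A :=
  ∑ i : Ix n, MvPolynomial.C (if i.2 = one n then c i else 0) * mon (fun j => MvPolynomial.X j) i.1

theorem aeval_mon {B : Type} [CommRing B] [Algebra A B] {σ : Type} {q : ℕ} (x : σ → B)
    (y : Fin n → MvPolynomial σ A) (e : Fin n → Fin q) :
    MvPolynomial.aeval x (mon y e) = mon (fun j => MvPolynomial.aeval x (y j)) e := by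
  unfold mon
  rw [map_prod]
  simp only [map_pow]

theorem aeval_opoly {B : Type} [CommRing B] [Algebra A B] (c : Ix n → A) (x : Fin (n + n) → B) :
    MvPolynomial.aeval x (opoly c) = ∑ i : Ix n, algebraMap A B (if wt i.2 ≤ wt (one n) then c i else 0) *
      (mon (fun j => x (Fin.castAdd n j)) i.1 * mon (fun j => x (Fin.natAdd n j)) i.2) := by
  unfold opoly
  rw [map_sum]
  simp only [map_mul, MvPolynomial.aeval_C, aeval_mon, MvPolynomial.aeval_X]

theorem aeval_fpoly {B : Type} [CommRing B] [Algebra A B] (c : Ix n → A) (x : Fin n → B) :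
    MvPolynomial.aeval x (fpoly c) = ∑ i : Ix n, algebraMap A B (if i.2 = one n then c i else 0) * mon x i.1 := by
  unfold fpoly
  rw [map_sum]
  simp only [map_mul, MvPolynomial.aeval_C, aeval_mon, MvPolynomial.aeval_X]

theorem totalDegree_mon_le {σ : Type} {q : ℕ} (d : ℕ) (hq : q ≤ d + 1) (y : Fin n → MvPolynomial σ A)
    (hy : ∀ j, (y j).totalDegree ≤ 1) (e : Fin n → Fin q) : (mon y e).totalDegree ≤ n * d := by
  unfold mon
  refine (MvPolynomial.totalDegree_finsetProd _ _).trans ?_
  refine (sum_le_card_nsmul _ _ d ?_).trans (by simp)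
  intro j _
  refine (MvPolynomial.totalDegree_pow _ _).trans ?_
  have h1 := (e j).2
  have h2 := hy j
  calc (e j : ℕ) * (y j).totalDegree ≤ (e j : ℕ) * 1 := Nat.mul_le_mul_left _ h2
    _ ≤ d := by omega

theorem totalDegree_X_le {σ : Type} (i : σ) : (MvPolynomial.X i : MvPolynomial σ A).totalDegree ≤ 1 := by
  rcases subsingleton_or_nontrivial A with h | h
  · rw [Subsingleton.elim (MvPolynomial.X i : MvPolynomial σ A) 0, MvPolynomial.totalDegree_zero]
    omega
  · rw [MvPolynomial.totalDegree_X]

theorem totalDegree_opoly_le (c : Ix n → A) : (opoly c).totalDegree ≤ 3 * n := by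
  unfold opoly
  refine MvPolynomial.totalDegree_finsetSum_le ?_
  intro i _
  refine (MvPolynomial.totalDegree_mul _ _).trans ?_
  rw [MvPolynomial.totalDegree_C, zero_add]
  refine (MvPolynomial.totalDegree_mul _ _).trans ?_
  have h1 := totalDegree_mon_le 1 (le_refl _) (fun j => (MvPolynomial.X (Fin.castAdd n j) : MvPolynomial (Fin (n + n)) A))
    (fun j => totalDegree_X_le _) i.1
  have h2 := totalDegree_mon_le 2 (le_refl _) (fun j => (MvPolynomial.X (Fin.natAdd n j) : MvPolynomial (Fin (n + n)) A))
    (fun j => totalDegree_X_le _) i.2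
  omega

theorem totalDegree_fpoly_le (c : Ix n → A) : (fpoly c).totalDegree ≤ n := by
  unfold fpoly
  refine MvPolynomial.totalDegree_finsetSum_le ?_
  intro i _
  refine (MvPolynomial.totalDegree_mul _ _).trans ?_
  rw [MvPolynomial.totalDegree_C, zero_add]
  have h1 := totalDegree_mon_le 1 (le_refl _) (fun j => (MvPolynomial.X j : MvPolynomial (Fin n) A))
    (fun j => totalDegree_X_le _) i.1
  omega

theorem pbounded_of_le {t : ℕ → ℕ} (c : ℕ) (h : ∀ n, t n ≤ c * n) : PBounded t := by
  refine ⟨Polynomial.C c * Polynomial.X, fun n => ?_⟩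
  simpa using h n

variable {k : Type} [Field k]

/-- the oracle -/
noncomputable def orc (α : (Σ m, Ix m) → k) : PFamily k where
  vars n := n + n
  poly n := opoly fun i => α ⟨n, i⟩
  vars_bdd := pbounded_of_le 2 fun n => by omega
  deg_bdd := pbounded_of_le 3 fun n => totalDegree_opoly_le _

/-- the separating family -/
noncomputable def fam (α : (Σ m, Ix m) → k) : PFamily k where
  vars n := n
  poly n := fpoly fun i => α ⟨n, i⟩
  vars_bdd := pbounded_of_le 1 fun n => by omega
  deg_bdd := pbounded_of_le 1 fun n => by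
    have := totalDegree_fpoly_le fun i => α ⟨n, i⟩
    omega

end Pool.Agent.VPO
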